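import Pool.Agent.Q250.CL.Coll

set_option autoImplicit false

/-!
# The bound `σ(n) ≤ c log n` in arithmetical test sets

A test set is given by inequalities for arbitrary real additive functions (the number of prime factors,
`log (σ(n) / n)`, ...), and an arbitrary condition on the value of an additive function with few values at the
primes (for example the vector of the numbers of prime factors in given arbitrary sets of primes) and on the list
of the `k` largest prime factors. Nothing is assumed on the size or the regularity of these conditions, and they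
may depend on `N`. In all test sets, up to `ε N` and uniformly, the bound `σ(n) ≤ c log n` of the question for the
total stopping time has the frequency `δ` if `c > 2 / log (4/3)` and the frequency `0` if `c < 2 / log (4/3)`, where
`δ > 0` is the density of the integers with finite `σ`; at the critical constant the normal law holds in all test
sets, and the average of `σ(n)`, truncated at `Λ log N`, is the same. If for one sequence of test sets of positive
proportion the exceptions to `σ(n) ≤ F(n)` have proportion `o(1)`, for any function `F`, for example `c log n`, then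
`σ(n)` is finite for every `n`.
-/
namespace Pool.Agent.Results.MP_a1568a_nt.ArithmeticTestSets

open Filter Topology

/-- the `3x+1` function -/
def T (n : ℕ) : ℕ := if n % 2 = 0 then n / 2 else (3 * n + 1) / 2

/-- the total stopping time of `n` is finite -/
def Finite (n : ℕ) : Prop := ∃ k, T^[k] n = 1

/-- the total stopping time (it is `0` if no iterate equals `1`) -/
noncomputable def σ (n : ℕ) : ℕ := sInf {k : ℕ | T^[k] n = 1}

/-- the number of odd terms among `n, T n, ..., T^(k-1) n` -/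
def odds (k n : ℕ) : ℕ := ((Finset.range k).filter fun i => T^[i] n % 2 = 1).card

/-- the positive integers with the property `P` have the natural density `δ` -/
def HasDensity (P : ℕ → Prop) (δ : ℝ) : Prop :=
  Tendsto (fun N : ℕ => ({n : ℕ | 1 ≤ n ∧ n ≤ N ∧ P n}.ncard : ℝ) / N) atTop (𝓝 δ)

/-- `2 / log (4/3) * log n + x * log 3 * √(2 log n / (log (4/3))^3)` -/
noncomputable def bound (x : ℝ) (n : ℕ) : ℝ :=
  2 / Real.log (4 / 3) * Real.log n
    + x * (Real.log 3 * Real.sqrt (2 * Real.log n / Real.log (4 / 3) ^ 3))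

/-- The distribution function of the standard normal law. -/
noncomputable def Phi (x : ℝ) : ℝ :=
  ProbabilityTheory.cdf (ProbabilityTheory.gaussianReal 0 1) x

/-- A multiplicative function with values in the closed unit disc. -/
def Multiplicative (g : ℕ → ℂ) : Prop :=
  (∀ n, ‖g n‖ ≤ 1) ∧ ∀ m n : ℕ, Nat.Coprime m n → g (m * n) = g m * g n

/-- An additive function with values in a commutative monoid. -/
def Additive {A : Type} [AddCommMonoid A] (f : ℕ → A) : Prop :=
  ∀ m n : ℕ, Nat.Coprime m n → f (m * n) = f m + f n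

/-- `h` has at most `r` different values at the primes. -/
def FewValues {A : Type} (r : ℕ) (h : ℕ → A) : Prop :=
  ∃ V : Finset A, V.card ≤ r ∧ ∀ p : ℕ, p.Prime → h p ∈ V

/-- The `k` largest prime factors of `n`, with multiplicity, in decreasing order (all prime factors, if `n` has
fewer than `k`). -/
def top (k n : ℕ) : List ℕ := n.primeFactorsList.reverse.take k

/-- The test sets: `f i n ∈ I i` for `d` real additive functions `f i` and intervals `I i`, and
`(h n, top k n) ∈ B` for an additive function `h` with at most `r` values at the primes and any set `B`. -/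
def IsTest (d r k : ℕ) (E : Set ℕ) : Prop :=
  ∃ (f : Fin d → ℕ → ℝ) (I : Fin d → Set ℝ) (A : Type) (_ : AddCommMonoid A) (h : ℕ → A) (B : Set (A × List ℕ)),
    (∀ i, Additive (f i)) ∧ (∀ i, (I i).OrdConnected) ∧ Additive h ∧ FewValues r h ∧
    E = {n : ℕ | (∀ i, f i n ∈ I i) ∧ (h n, top k n) ∈ B}

/-- The number of the positive integers `n ≤ N` in `E` with the property `P`. -/
noncomputable def Count (N : ℕ) (P : ℕ → Prop) (E : Set ℕ) : ℕ := {n : ℕ | 1 ≤ n ∧ n ≤ N ∧ n ∈ E ∧ P n}.ncard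

open scoped Classical in
/-- The property `P` has the frequency `c` in all test sets: for all `d`, `r`, `k` and `ε > 0`, if `N` is large, then
for every test set `E` the number of the `n ≤ N` in `E` with the property `P` is `c` times the number of the `n ≤ N`
in `E`, up to `ε N`; and the sum of `(1_P(n) - c) g(n)` over the `n ≤ N` in `E` is at most `ε N` in absolute value for
all multiplicative `g` with values in the unit disc. -/
def HasFrequency (P : ℕ → Prop) (c : ℝ) : Prop := ∀ (d r k : ℕ) (ε : ℝ), 0 < ε → ∃ N₀ : ℕ, ∀ N : ℕ, N₀ ≤ N →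
  ∀ E : Set ℕ, IsTest d r k E →
    |(Count N P E : ℝ) - c * Count N (fun _ => True) E| ≤ ε * N ∧
    ∀ g : ℕ → ℂ, Multiplicative g →
      ‖∑ n ∈ Finset.Icc 1 N, if n ∈ E then ((if P n then (1 : ℂ) else 0) - c) * g n else 0‖ ≤ ε * N

open scoped Classical in
/-- The sum of the `σ(n)` over the `n ≤ N` in `E` with finite `σ(n) ≤ t`. -/
noncomputable def SumUpTo (N : ℕ) (t : ℝ) (E : Set ℕ) : ℝ :=
  ∑ n ∈ Finset.Icc 1 N, if n ∈ E ∧ Finite n ∧ (σ n : ℝ) ≤ t then (σ n : ℝ) else 0

/-! ### proofs -/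

open Pool.Agent.Q250.CL Finset
open Pool.Agent.H499R2.ND (Dn cnt)

theorem freq_of {P : ℕ → Prop} {c : ℝ} (h : Ind P c) : HasFrequency P c := by
  intro d r k ε hε
  obtain ⟨N0, H⟩ := h d r k ε hε
  exact ⟨N0, fun N hN E hE => ⟨Pool.Agent.Q250.CL.count_of
    (H N hN E hE (fun _ => 1) ⟨fun _ => by simp, fun _ _ _ => by simp⟩), fun g hg => H N hN E hE g hg⟩⟩

theorem fin_H (n : ℕ) : Finite n ↔ ∃ k, Pool.Agent.H499R2.HL.H k n := Pool.Agent.Y964.LW.hit_iff n

theorem σ_eq {n k : ℕ} (h : Pool.Agent.H499R2.HL.H k n) : σ n = k := fst_eq h.1 h.2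

theorem H_σ {n : ℕ} (h : Finite n) : Pool.Agent.H499R2.HL.H (σ n) n := fst_spec h

/-- THE BOUND `σ(n) ≤ c log n` IN TEST SETS. There is `0 < δ ≤ 1`, the natural density of the positive integers with
finite total stopping time `σ(n)`, equal to `1` if and only if `σ(n)` is always finite, such that: (1) the bound
`σ(n) ≤ F(n)` (with finite `σ(n)`) has the frequency `δ` in all test sets if `F(n) ≥ c log n` for all large `n` and some
`c > 2 / log (4/3)`, and the frequency `0` if `F(n) ≤ c log n` for all large `n` and some `c < 2 / log (4/3)`; in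
particular this is so for `F(n) = c log n`. (2) For all `m ≥ 1`, `a`, `b` and real `x` the `n` with finite
`σ(n) ≤ bound x n`, `σ(n) ≡ a` and number of odd terms before reaching `1` `≡ b` modulo `m` have the frequency
`δ Phi x / m ^ 2` in all test sets. (3) For every `Λ > 2 / log (4/3)` the sum of the finite `σ(n) ≤ Λ log N` over the
`n ≤ N` in `E` is `δ 2 / log (4/3) log N` times the number of the `n ≤ N` in `E`, up to `ε N log N`, uniformly in the
test sets `E`. (4) Let `F` be any function. If for some `κ > 0` and infinitely many `N` at least `κ N` of the `n ≤ N`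
are in the test set `E N` and all but `o(N)` of these satisfy `σ(n) ≤ F(n)`, then `σ(n)` is finite for every positive
integer `n`. -/
theorem result : ∃ δ : ℝ, 0 < δ ∧ δ ≤ 1 ∧ (δ = 1 ↔ ∀ n : ℕ, 1 ≤ n → Finite n) ∧ HasDensity Finite δ ∧
    (∀ F : ℕ → ℝ, (∃ c : ℝ, 2 / Real.log (4 / 3) < c ∧ ∀ᶠ n : ℕ in atTop, c * Real.log n ≤ F n) →
      HasFrequency (fun n => Finite n ∧ (σ n : ℝ) ≤ F n) δ) ∧
    (∀ F : ℕ → ℝ, (∃ c : ℝ, c < 2 / Real.log (4 / 3) ∧ ∀ᶠ n : ℕ in atTop, F n ≤ c * Real.log n) →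
      HasFrequency (fun n => Finite n ∧ (σ n : ℝ) ≤ F n) 0) ∧
    (∀ (m : ℕ) (a b : ℤ) (x : ℝ), 1 ≤ m → HasFrequency (fun n => Finite n ∧ (σ n : ℝ) ≤ bound x n ∧
      (σ n : ℤ) ≡ a [ZMOD m] ∧ (odds (σ n) n : ℤ) ≡ b [ZMOD m]) (δ * Phi x / m ^ 2)) ∧
    (∀ Λ : ℝ, 2 / Real.log (4 / 3) < Λ → ∀ (d r k : ℕ) (ε : ℝ), 0 < ε → ∃ N₀ : ℕ, ∀ N : ℕ, N₀ ≤ N →
      ∀ E : Set ℕ, IsTest d r k E →
        |SumUpTo N (Λ * Real.log N) E
          - δ * (2 / Real.log (4 / 3)) * Real.log N * Count N (fun _ => True) E| ≤ ε * (N * Real.log N)) ∧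
    ∀ (d r k : ℕ) (E : ℕ → Set ℕ), (∀ N, IsTest d r k (E N)) → ∀ (κ : ℝ) (F ψ : ℕ → ℝ), 0 < κ →
      Tendsto ψ atTop (𝓝 0) →
      (∃ᶠ N : ℕ in atTop, κ * N ≤ Count N (fun _ => True) (E N) ∧
        (Count N (fun n => ¬ (Finite n ∧ (σ n : ℝ) ≤ F n)) (E N) : ℝ) ≤ ψ N * N) →
      ∀ n : ℕ, 1 ≤ n → Finite n := by
  classical
  obtain ⟨δ, h0, h1, h2, h3, h4, h5⟩ := Pool.Agent.Q49.EX.rx_laws
  obtain ⟨δ', _, _, _, h3', h4'⟩ := lln_T
  have e0 : δ' = δ := tendsto_nhds_unique h3' h3
  have hD : Dn Finite δ := h3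
  have hI : Ind Finite δ := ind_of (Pool.Agent.Q49.AF.RX_congr (fun n _ => (fin_H n).symm) h4)
  have hL : 0 < Real.log (4 / 3) := Real.log_pos (by norm_num)
  set κ₀ := 2 / Real.log (4 / 3) with hκ₀
  have hκ0 : 0 < κ₀ := by positivity
  have hlln : ∀ η : ℝ, 0 < η → Tendsto (fun N : ℕ =>
      cnt (fun n => Finite n ∧ η * Real.log n < |(σ n : ℝ) - κ₀ * Real.log n|) N / N) atTop (𝓝 0) := h4'
  refine ⟨δ, h0, h1, h2, hD,
    fun F hF => freq_of (ind_near hI (dz_above hlln hF)),
    fun F hF => freq_of (ind_near ind_false (dz_below hlln hF)), fun m a b x hm => ?_,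
    fun Λ hΛ d r k ε hε => ?_, ?_⟩
  · have h6 := ((h5 m a b hm).2.2 x).1
    have e : δ / (m : ℝ) ^ 2 * Pool.Agent.H499R2.ND.Phi x = δ * Phi x / m ^ 2 := by
      rw [Pool.Agent.H499R2.ND.phi_cdf]; unfold Phi; ring
    rw [e] at h6
    refine freq_of (ind_of (Pool.Agent.Q49.AF.RX_congr (fun n hn => ?_) h6))
    constructor
    · rintro ⟨k, hk, g1, g3, g4⟩
      have g7 : σ n = k := σ_eq hk
      have g8 : odds k n = Pool.Agent.H499R2.LT.odn k n := rfl
      refine ⟨(fin_H n).2 ⟨k, hk⟩, ?_, ?_, ?_⟩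
      · rw [g7]; exact g1
      · rw [g7]; exact g3
      · rw [g7, g8]; exact g4
    · rintro ⟨g1, g2, g3, g4⟩
      exact ⟨σ n, H_σ g1, g2, g3, g4⟩
  · obtain ⟨N0, H⟩ := trunc hκ0 (fun n => Nat.cast_nonneg (σ n)) hI hlln hΛ d r k hε
    exact ⟨N0, fun N hN E hE => H N hN E hE⟩
  · intro d r k E hE κ F ψ hκ hψ h
    refine h2.1 (suff h1 hI hE hκ hψ (h.mono fun N hN => ⟨hN.1, le_trans ?_ hN.2⟩))
    have h6 : {n : ℕ | 1 ≤ n ∧ n ≤ N ∧ n ∈ E N ∧ ¬ Finite n} ⊆
        {n : ℕ | 1 ≤ n ∧ n ≤ N ∧ n ∈ E N ∧ ¬ (Finite n ∧ (σ n : ℝ) ≤ F n)} :=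
      fun n hn => ⟨hn.1, hn.2.1, hn.2.2.1, fun h' => hn.2.2.2 h'.1⟩
    have h7 : {n : ℕ | 1 ≤ n ∧ n ≤ N ∧ n ∈ E N ∧ ¬ (Finite n ∧ (σ n : ℝ) ≤ F n)}.Finite :=
      (Set.finite_Icc 1 N).subset fun n hn => ⟨hn.1, hn.2.1⟩
    exact_mod_cast Set.ncard_le_ncard h6 h7

end Pool.Agent.Results.MP_a1568a_nt.ArithmeticTestSets
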