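import Pool.Agent.Q250.CL.Coll
import Pool.Agent.Q250.CL.Mul

set_option autoImplicit false

/-!
# Multiple ergodic averages along the integers with `σ(n) ≤ c log n`

Let `T 1, ..., T k` be commuting invertible measure preserving transformations of a probability space. The multiple
ergodic averages of bounded functions along the integers which satisfy the bound `σ(n) ≤ c log n` of the question,
`c > 2 / log (4/3)`, have the same limit in `L²` as those along all integers, multiplied by the density `δ > 0` of the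
integers with finite `σ`; the error is small uniformly in the space, the transformations and the functions. For
`c < 2 / log (4/3)` they tend to zero. Return times are sufficient: if, for some function `F`, for example `c log n`, the
bound `σ(n) ≤ F(n)` is true for almost all return times of one set of positive measure under one measure preserving
transformation (or for the multiple return times of systems which may depend on `N`), then `σ` is always finite.

Method: small Gowers norms of the set of the integers with finite `σ` and a generalised von Neumann theorem for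
commuting transformations (`Pool/Agent/Q49/ME`), and the law of large numbers for `σ`.
-/

namespace Pool.Agent.Results.MP_a1568a_nt.MultipleReturnTimes

open Filter Topology MeasureTheory

/-- the `3x+1` function -/
def T (n : ℕ) : ℕ := if n % 2 = 0 then n / 2 else (3 * n + 1) / 2

/-- the total stopping time of `n` is finite -/
def Finite (n : ℕ) : Prop := ∃ k, T^[k] n = 1

/-- the total stopping time (it is `0` if no iterate equals `1`) -/
noncomputable def σ (n : ℕ) : ℕ := sInf {k : ℕ | T^[k] n = 1}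

/-- `σ(n)` is finite and at most `F(n)` -/
def AtMost (F : ℕ → ℝ) (n : ℕ) : Prop := Finite n ∧ (σ n : ℝ) ≤ F n

/-- the positive integers with the property `P` have the natural density `δ` -/
def HasDensity (P : ℕ → Prop) (δ : ℝ) : Prop :=
  Tendsto (fun N : ℕ => ({n : ℕ | 1 ≤ n ∧ n ≤ N ∧ P n}.ncard : ℝ) / N) atTop (𝓝 δ)

/-- `F(n) ≥ c log n` for all large `n` and some `c > 2 / Real.log (4 / 3)` -/
def Above (F : ℕ → ℝ) : Prop := ∃ c : ℝ, 2 / Real.log (4 / 3) < c ∧ ∀ᶠ n : ℕ in atTop, c * Real.log n ≤ F n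

/-- `F(n) ≤ c log n` for all large `n` and some `c < 2 / Real.log (4 / 3)` -/
def Below (F : ℕ → ℝ) : Prop := ∃ c : ℝ, c < 2 / Real.log (4 / 3) ∧ ∀ᶠ n : ℕ in atTop, F n ≤ c * Real.log n

/-- `k` commuting invertible measure preserving transformations of a probability space `X` -/
structure System (k : ℕ) (X : Type) [MeasurableSpace X] where
  μ : Measure X
  prob : IsProbabilityMeasure μ
  T : Fin k → X ≃ᵐ X
  mp : ∀ i, MeasurePreserving (T i) μ μ
  comm : ∀ i j x, T i (T j x) = T j (T i x)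

/-- the product `f 1 (T 1 ^ n x) ⋯ f k (T k ^ n x)` -/
noncomputable def System.P {k : ℕ} {X : Type} [MeasurableSpace X] (Y : System k X) (f : Fin k → X → ℂ) (n : ℕ)
    (x : X) : ℂ := ∏ i, f i ((Y.T i)^[n] x)

/-- measurable functions with values in the unit disc -/
def Bounded {k : ℕ} {X : Type} [MeasurableSpace X] (f : Fin k → X → ℂ) : Prop :=
  ∀ i, Measurable (f i) ∧ ∀ x, ‖f i x‖ ≤ 1

/-- the measure of `A₀ ∩ T 1 ^ (-n) A 1 ∩ ... ∩ T k ^ (-n) A k` -/
noncomputable def System.ret {k : ℕ} {X : Type} [MeasurableSpace X] (Y : System k X) (A₀ : Set X) (A : Fin k → Set X)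
    (n : ℕ) : ℝ := Y.μ.real (A₀ ∩ {x | ∀ i, (Y.T i)^[n] x ∈ A i})

open scoped Classical in
/-- The property `Q` has the frequency `c` in multiple ergodic averages. (1) For all `k` and `ε > 0`, if `N` is large,
then for every system `Y` of `k` commuting invertible measure preserving transformations and all measurable
`f 1, ..., f k` with values in the unit disc, the mean over `n ≤ N` of `(1_Q(n) - c) f 1 (T 1 ^ n x) ⋯ f k (T k ^ n x)` has
a norm at most `ε` in `L²`; and the sum over `n ≤ N` of `1_Q(n) - c` times the measure of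
`A₀ ∩ T 1 ^ (-n) A 1 ∩ ... ∩ T k ^ (-n) A k` is at most `ε N` in absolute value. (2) If the multiple ergodic averages
converge in `L²` (they do by a theorem of Tao) to `L`, then those along `Q` converge to `c L` in `L²`. -/
def HasFrequency (Q : ℕ → Prop) (c : ℝ) : Prop :=
  (∀ (k : ℕ) (ε : ℝ), 0 < ε → ∃ N₀ : ℕ, ∀ N : ℕ, N₀ ≤ N → ∀ (X : Type) [MeasurableSpace X] (Y : System k X),
    (∀ f : Fin k → X → ℂ, Bounded f →
      ∫ x, ‖(∑ n ∈ Finset.Icc 1 N, (((if Q n then (1 : ℝ) else 0) - c : ℝ) : ℂ) * Y.P f n x) / N‖ ^ 2 ∂Y.μ ≤ ε ^ 2) ∧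
    ∀ (A₀ : Set X) (A : Fin k → Set X), MeasurableSet A₀ → (∀ i, MeasurableSet (A i)) →
      |∑ n ∈ Finset.Icc 1 N, ((if Q n then (1 : ℝ) else 0) - c) * Y.ret A₀ A n| ≤ ε * N) ∧
  ∀ (k : ℕ) (X : Type) [MeasurableSpace X] (Y : System k X) (f : Fin k → X → ℂ), Bounded f → ∀ L : X → ℂ,
    MemLp L 2 Y.μ →
    Tendsto (fun N : ℕ => ∫ x, ‖(∑ n ∈ Finset.Icc 1 N, Y.P f n x) / N - L x‖ ^ 2 ∂Y.μ) atTop (𝓝 0) →
    Tendsto (fun N : ℕ => ∫ x, ‖(∑ n ∈ Finset.Icc 1 N, if Q n then Y.P f n x else 0) / N - c * L x‖ ^ 2 ∂Y.μ)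
      atTop (𝓝 0)

/-! ### proofs -/

open Pool.Agent.Q250.CL
open Pool.Agent.H499R2.ND (Dn cnt)

/-- translation -/
def conv {k : ℕ} {X : Type} [MeasurableSpace X] (Y : System k X) :
    Pool.Agent.Results.MP_2d22f3_nt.MultipleRecurrence.System k X := ⟨Y.μ, Y.prob, Y.T, Y.mp, Y.comm⟩

theorem freq_of {Q : ℕ → Prop} {c : ℝ} (h : ME Q c) : HasFrequency Q c := by
  classical
  refine ⟨fun k ε hε => ?_, fun k X _ Y f hf L hL hlim => me_lim h (conv Y) hf hL hlim⟩
  obtain ⟨N1, H1⟩ := h k (ε ^ 2) (by positivity)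
  obtain ⟨N2, H2⟩ := me_ret h k hε
  refine ⟨N1 + N2 + 1, fun N hN X _ Y =>
    ⟨fun f hf => ?_, fun A₀ A hA₀ hA => H2 N (by omega) X (conv Y) A₀ A hA₀ hA⟩⟩
  have h3 := H1 N (by omega) X (conv Y) f hf
  have hNp : (0 : ℝ) < N := by exact_mod_cast (by omega : 0 < N)
  have e1 : ∀ x, ‖(∑ n ∈ Finset.Icc 1 N, (((if Q n then (1 : ℝ) else 0) - c : ℝ) : ℂ) * Y.P f n x) / N‖ ^ 2
      = 1 / (N : ℝ) ^ 2 * ‖∑ n ∈ Finset.Icc 1 N, (((if Q n then (1 : ℝ) else 0) - c : ℝ) : ℂ) * Y.P f n x‖ ^ 2 := by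
    intro x
    rw [norm_div, Complex.norm_natCast, div_pow]
    ring
  simp_rw [e1]
  rw [integral_const_mul, one_div, inv_mul_le_iff₀ (by positivity)]
  rw [mul_comm]
  exact h3

open scoped Classical in
/-- MULTIPLE ERGODIC AVERAGES AND THE BOUND `σ(n) ≤ c log n`. There is `0 < δ ≤ 1`, the natural density of the
positive integers with finite total stopping time `σ`, equal to `1` if and only if `σ` is always finite, such that: (1) in
the sense of `HasFrequency`, the property that `σ(n)` is finite and at most `F(n)` has the frequency `δ` in multiple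
ergodic averages if `F(n) ≥ c log n` for all large `n` and some `c > 2 / log (4/3)`, and the frequency `0` if
`F(n) ≤ c log n` for all large `n` and some `c < 2 / log (4/3)`. (2) Let `F` be any function. If for infinitely many `N`
there are a system and sets such that the sum over `n ≤ N` of the measures of
`A₀ ∩ T 1 ^ (-n) A 1 ∩ ... ∩ T k ^ (-n) A k` is at least `κ N`, and `o(N)` for the sum over the `n` for which `σ(n) ≤ F(n)`
is not true, then `σ(n)` is finite for every positive integer `n`. (3) Let `F` be any function and `A` a set of positive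
measure for one invertible measure preserving transformation. If, for infinitely many `N`, up to `o(N)` exceptions
`n ≤ N`, all `n` for which `A ∩ T ^ (-n) A` has positive measure satisfy `σ(n) ≤ F(n)`, then `σ(n)` is finite for every
positive integer `n`. -/
theorem result : ∃ δ : ℝ, 0 < δ ∧ δ ≤ 1 ∧ (δ = 1 ↔ ∀ n : ℕ, 1 ≤ n → Finite n) ∧ HasDensity Finite δ ∧
    (∀ F : ℕ → ℝ, Above F → HasFrequency (AtMost F) δ) ∧
    (∀ F : ℕ → ℝ, Below F → HasFrequency (AtMost F) 0) ∧
    ∀ F ψ : ℕ → ℝ, Tendsto ψ atTop (𝓝 0) →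
      (∀ (k : ℕ) (κ : ℝ), 0 < κ →
        (∃ᶠ N : ℕ in atTop, ∃ (X : Type) (_ : MeasurableSpace X) (Y : System k X) (A₀ : Set X) (A : Fin k → Set X),
          MeasurableSet A₀ ∧ (∀ i, MeasurableSet (A i)) ∧ κ * N ≤ ∑ n ∈ Finset.Icc 1 N, Y.ret A₀ A n ∧
          ∑ n ∈ Finset.Icc 1 N, (if AtMost F n then (0 : ℝ) else 1) * Y.ret A₀ A n ≤ ψ N * N) →
        ∀ n : ℕ, 1 ≤ n → Finite n) ∧
      ∀ (X : Type) [MeasurableSpace X] (Y : System 1 X) (A : Set X), MeasurableSet A → 0 < Y.μ A →
        (∃ᶠ N : ℕ in atTop,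
          ({n : ℕ | 1 ≤ n ∧ n ≤ N ∧ 0 < Y.ret A (fun _ => A) n ∧ ¬ AtMost F n}.ncard : ℝ) ≤ ψ N * N) →
        ∀ n : ℕ, 1 ≤ n → Finite n := by
  obtain ⟨δ, h0, h1, h2, h3, hlln⟩ := lln_T
  have hD : Dn Finite δ := h3
  have hF : ME Finite δ := me_inv (P := Finite) reach_inv h3
  have hlln' : ∀ η : ℝ, 0 < η → Tendsto (fun N : ℕ =>
      cnt (fun n => Finite n ∧ η * Real.log n < |(σ n : ℝ) - 2 / Real.log (4 / 3) * Real.log n|) N / N) atTop (𝓝 0) := hlln
  refine ⟨δ, h0, h1, h2, h3, fun F hF' => freq_of (me_near hF (dz_above hlln' hF')),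
    fun F hF' => freq_of (me_near me_false (dz_below hlln' hF')), fun F ψ hψ => ⟨fun k κ hκ h => h2.1 ?_,
    fun X _ Y A hA hpos h => h2.1 ?_⟩⟩
  · refine me_suff hF h1 k hκ hψ (h.mono ?_)
    rintro N ⟨X, hX, Y, A₀, A, hA₀, hA, g1, g2⟩
    refine ⟨X, hX, conv Y, A₀, A, hA₀, hA, g1, le_trans (Finset.sum_le_sum fun n _ => ?_) g2⟩
    have hr0 : 0 ≤ Y.ret A₀ A n := measureReal_nonneg
    have hr1 : (conv Y).ret A₀ A n = Y.ret A₀ A n := rfl
    rw [hr1]
    refine mul_le_mul_of_nonneg_right ?_ hr0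
    by_cases hf : Finite n
    · rw [if_pos hf]; split_ifs <;> norm_num
    · rw [if_neg hf, if_neg (fun h' => hf h'.1)]
  · refine me_suff_one hF h1 (conv Y) hA hpos hψ (h.mono fun N hN => le_trans ?_ hN)
    have h7 : {n : ℕ | 1 ≤ n ∧ n ≤ N ∧ 0 < Y.ret A (fun _ => A) n ∧ ¬ AtMost F n}.Finite :=
      (Set.finite_Icc 1 N).subset fun n hn => ⟨hn.1, hn.2.1⟩
    have h8 : {n : ℕ | 1 ≤ n ∧ n ≤ N ∧ 0 < (conv Y).ret A (fun _ => A) n ∧ ¬ Finite n} ⊆
        {n : ℕ | 1 ≤ n ∧ n ≤ N ∧ 0 < Y.ret A (fun _ => A) n ∧ ¬ AtMost F n} :=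
      fun n hn => ⟨hn.1, hn.2.1, hn.2.2.1, fun h' => hn.2.2.2 h'.1⟩
    exact_mod_cast Set.ncard_le_ncard h8 h7

end Pool.Agent.Results.MP_a1568a_nt.MultipleReturnTimes
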