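import Pool.Agent.Q250.CL.Coll
import Pool.Agent.Q250.CL.Pt

set_option autoImplicit false

/-!
# The pointwise ergodic theorem along the integers with `σ(n) ≤ c log n`

For every measure preserving transformation `R` of a probability space and every square integrable function `f`,
for almost every point `x`, the averages of `f (R ^ n x)` over the `n ≤ N` which satisfy the bound `σ(n) ≤ F(n)` converge
to the conditional expectation of `f`, for ALL functions `F` which are at least `c log n` with some
`c > 2 / log (4/3)`, and these `n` have the density `δ > 0` of the integers with finite `σ`; the exceptional null set does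
not depend on `F`. For uniquely ergodic transformations and continuous functions this holds for every point, uniformly.
The visits of a typical orbit to one set are sufficient: if for some ergodic transformation and some set `A` of
positive measure, with positive probability, almost all `n` (up to some large `N`) with `R ^ n x ∈ A` satisfy
`σ(n) ≤ F(n)`, for any function `F`, then `σ` is always finite.

Method: coalescence of the trajectories of `n` and `n + h`, `h ≤ N ^ θ` (starting file `SparseCoalescence` of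
MP_d02c56_nt, `Pool/Agent/Q49/PE`), the law of large numbers for `σ`, and the square summability for the exceptional
set of density zero.
-/

namespace Pool.Agent.Results.MP_a1568a_nt.PointwiseErgodicTheorem

open Filter Topology MeasureTheory

/-- the `3x+1` function -/
def T (n : ℕ) : ℕ := if n % 2 = 0 then n / 2 else (3 * n + 1) / 2

/-- the total stopping time of `n` is finite -/
def Finite (n : ℕ) : Prop := ∃ k, T^[k] n = 1

/-- the total stopping time (it is `0` if no iterate equals `1`) -/
noncomputable def σ (n : ℕ) : ℕ := sInf {k : ℕ | T^[k] n = 1}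

/-- `σ(n)` is finite and at most `F(n)` -/
def AtMost (F : ℕ → ℝ) (n : ℕ) : Prop := Finite n ∧ (σ n : ℝ) ≤ F n

/-- the positive integers with the property `P` have the natural density `δ` -/
def HasDensity (P : ℕ → Prop) (δ : ℝ) : Prop :=
  Tendsto (fun N : ℕ => ({n : ℕ | 1 ≤ n ∧ n ≤ N ∧ P n}.ncard : ℝ) / N) atTop (𝓝 δ)

/-- `F(n) ≥ c log n` for all large `n` and some `c > 2 / Real.log (4 / 3)` -/
def Above (F : ℕ → ℝ) : Prop := ∃ c : ℝ, 2 / Real.log (4 / 3) < c ∧ ∀ᶠ n : ℕ in atTop, c * Real.log n ≤ F n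

/-- `F(n) ≤ c log n` for all large `n` and some `c < 2 / Real.log (4 / 3)` -/
def Below (F : ℕ → ℝ) : Prop := ∃ c : ℝ, c < 2 / Real.log (4 / 3) ∧ ∀ᶠ n : ℕ in atTop, F n ≤ c * Real.log n

open scoped Classical in
/-- the sum of `w n` over the `n` in `[1, N]` with the property `Q` -/
noncomputable def sumAlong (Q : ℕ → Prop) (N : ℕ) (w : ℕ → ℝ) : ℝ := ∑ n ∈ Finset.Icc 1 N, if Q n then w n else 0

/-- the number of the `n` in `[1, N]` with the property `Q` -/
noncomputable def number (Q : ℕ → Prop) (N : ℕ) : ℕ := {n : ℕ | 1 ≤ n ∧ n ≤ N ∧ Q n}.ncard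

/-! ### proofs -/

open Pool.Agent.Q250.CL
open Pool.Agent.H499R2.ND (Dn cnt)

theorem number_eq (Q : ℕ → Prop) (N : ℕ) : (number Q N : ℝ) = cnt Q N := by
  classical
  rw [Pool.Agent.H499R2.ND.cnt_eq]
  unfold number
  have : {n : ℕ | 1 ≤ n ∧ n ≤ N ∧ Q n} = (((Finset.Icc 1 N).filter Q : Finset ℕ) : Set ℕ) := by
    ext n
    simp only [Set.mem_ofPred_eq, Finset.coe_filter, Finset.mem_Icc, and_assoc]
  rw [this, Set.ncard_coe_finset]

theorem dens_near {P Q : ℕ → Prop} {δ : ℝ} (h : Dn P δ)
    (hd : Tendsto (fun N : ℕ => cnt (fun n => ¬ (P n ↔ Q n)) N / N) atTop (𝓝 0)) :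
    Tendsto (fun N : ℕ => (number Q N : ℝ) / N) atTop (𝓝 δ) := by
  have h1 : Tendsto (fun N : ℕ => cnt Q N / N - cnt P N / N) atTop (𝓝 0) := by
    refine squeeze_zero_norm (fun N => ?_) hd
    rw [← sub_div, Real.norm_eq_abs, abs_div, Nat.abs_cast]
    refine div_le_div_of_nonneg_right ?_ (Nat.cast_nonneg _)
    rw [abs_le]
    constructor
    · have := cnt_add_le (P := P) (Q := Q) (R := fun n => ¬ (P n ↔ Q n)) N fun n _ _ hp => by
        by_cases hq : Q n
        · exact Or.inl hq
        · exact Or.inr fun h' => hq (h'.1 hp)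
      linarith
    · have := cnt_add_le (P := Q) (Q := P) (R := fun n => ¬ (P n ↔ Q n)) N fun n _ _ hq => by
        by_cases hp : P n
        · exact Or.inl hp
        · exact Or.inr fun h' => hp (h'.2 hq)
      linarith
  have h2 : Tendsto (fun N : ℕ => cnt P N / N) atTop (𝓝 δ) := h
  have h3 := h1.add h2
  rw [zero_add] at h3
  refine h3.congr fun N => ?_
  rw [number_eq, sub_add_cancel]

/-- THE POINTWISE ERGODIC THEOREM AND THE BOUND `σ(n) ≤ c log n`. There is `0 < δ ≤ 1`, the natural density of the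
positive integers with finite total stopping time `σ`, equal to `1` if and only if `σ` is always finite, such that:
(1) Let `R` be a measure preserving transformation of a probability space and `f` square integrable. For almost every
`x`: for all `F` with `F(n) ≥ c log n` for all large `n` and some `c > 2 / log (4/3)` the average of `f (R ^ n x)` over the
`n ≤ N` with `σ(n) ≤ F(n)` converges to the conditional expectation of `f` with respect to the invariant sets of `R`,
and the sum over these `n`, divided by `N`, converges to `δ` times it; for all `F` with `F(n) ≤ c log n` for all large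
`n` and some `c < 2 / log (4/3)` the latter converges to `0`. (2) If the averages of the bounded function `f` over the
orbits of a map `R` converge to `b` uniformly in the point (for example `f` continuous, `R` uniquely ergodic), and
`F(n) ≥ c log n` as in (1), the sum of `f (R ^ n x)` over the `n ≤ N` with `σ(n) ≤ F(n)` is `b δ N` up to `ε N`, for all
large `N`, uniformly in `x`. (3) Let `F` be any function, `R` an ergodic transformation and `A` a set of positive
measure. If it is not true that for almost every `x`, for all large `N`, more than `ψ(N) N` of the `n ≤ N` with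
`R ^ n x ∈ A` violate `σ(n) ≤ F(n)`, where `ψ(N) → 0`, then `σ(n)` is finite for every positive integer `n`. -/
theorem result : ∃ δ : ℝ, 0 < δ ∧ δ ≤ 1 ∧ (δ = 1 ↔ ∀ n : ℕ, 1 ≤ n → Finite n) ∧ HasDensity Finite δ ∧
    (∀ (X : Type) [MeasurableSpace X] (μ : Measure X) [IsProbabilityMeasure μ] (R : X → X) (f : X → ℝ),
      MeasurePreserving R μ μ → MemLp f 2 μ → ∀ᵐ x ∂μ,
        (∀ F : ℕ → ℝ, Above F →
          Tendsto (fun N : ℕ => sumAlong (AtMost F) N (fun n => f (R^[n] x)) / number (AtMost F) N) atTop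
            (𝓝 ((μ[f | MeasurableSpace.invariants R]) x)) ∧
          Tendsto (fun N : ℕ => sumAlong (AtMost F) N (fun n => f (R^[n] x)) / N) atTop
            (𝓝 (δ * (μ[f | MeasurableSpace.invariants R]) x))) ∧
        (∀ F : ℕ → ℝ, Below F →
          Tendsto (fun N : ℕ => sumAlong (AtMost F) N (fun n => f (R^[n] x)) / N) atTop (𝓝 0))) ∧
    (∀ F : ℕ → ℝ, Above F → ∀ (X : Type) (R : X → X) (f : X → ℝ) (B b : ℝ), (∀ x, |f x| ≤ B) →
      (∀ ε : ℝ, 0 < ε → ∃ H₀ : ℕ, ∀ H : ℕ, H₀ ≤ H → ∀ x,
        |∑ h ∈ Finset.range H, f (R^[h] x) - b * H| ≤ ε * H) →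
      ∀ ε : ℝ, 0 < ε → ∃ N₀ : ℕ, ∀ N : ℕ, N₀ ≤ N → ∀ x,
        |sumAlong (AtMost F) N (fun n => f (R^[n] x)) - b * δ * N| ≤ ε * N) ∧
    ∀ (F ψ : ℕ → ℝ), Tendsto ψ atTop (𝓝 0) → ∀ (X : Type) [MeasurableSpace X] (μ : Measure X)
      [IsProbabilityMeasure μ] (R : X → X) (A : Set X), Ergodic R μ → MeasurableSet A → 0 < μ A →
      (¬ ∀ᵐ x ∂μ, ∀ᶠ N : ℕ in atTop,
        ψ N * N < ({n : ℕ | 1 ≤ n ∧ n ≤ N ∧ R^[n] x ∈ A ∧ ¬ AtMost F n}.ncard : ℝ)) →
      ∀ n : ℕ, 1 ≤ n → Finite n := by
  classical
  obtain ⟨δ, h0, h1, h2, h3, hlln⟩ := lln_T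
  have hlln' : ∀ η : ℝ, 0 < η → Tendsto (fun N : ℕ =>
      cnt (fun n => Finite n ∧ η * Real.log n < |(σ n : ℝ) - 2 / Real.log (4 / 3) * Real.log n|) N / N) atTop (𝓝 0) := hlln
  have dn_false : Dn (fun _ => False) 0 := by
    unfold Pool.Agent.H499R2.ND.Dn
    refine tendsto_const_nhds.congr fun N => ?_
    rw [cnt_sum]; simp
  refine ⟨δ, h0, h1, h2, h3, fun X _ μ _ R f hR hf => ?_, fun F hF X R f B b hB hb ε hε => ?_,
    fun F ψ hψ X _ μ _ R A hR hA hpos hbad => h2.1 ?_⟩
  · filter_upwards [pw (P := Finite) reach_inv h3 hR hf, pw (P := fun _ => False) (fun _ _ => Iff.rfl) dn_false hR hf]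
      with x hx1 hx2
    refine ⟨fun F hF => ?_, fun F hF => ?_⟩
    · have g1 := hx1.1 (AtMost F) (dz_above hlln' hF)
      have g2 : Tendsto (fun N : ℕ => sumAlong (AtMost F) N (fun n => f (R^[n] x)) / N) atTop
          (𝓝 (δ * (μ[f | MeasurableSpace.invariants R]) x)) := by
        refine g1.congr fun N => ?_
        unfold sumAlong
        rw [div_eq_inv_mul]
      refine ⟨?_, g2⟩
      have g3 := g2.div (dens_near h3 (dz_above hlln' hF)) h0.ne'
      rw [mul_div_cancel_left₀ _ h0.ne'] at g3
      refine g3.congr' ?_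
      filter_upwards [eventually_gt_atTop 0] with N hN
      have hN0 : (N : ℝ) ≠ 0 := by exact_mod_cast hN.ne'
      simp only [Pi.div_apply]
      rw [div_div_div_cancel_right₀ hN0]
      rfl
    · have g1 := hx2.1 (AtMost F) (dz_below hlln' hF)
      rw [zero_mul] at g1
      refine g1.congr fun N => ?_
      unfold sumAlong
      rw [div_eq_inv_mul]
  · exact pw_unif (P := Finite) reach_inv h3 (dz_above hlln' hF) hB hb hε
  · have hid : Tendsto (fun N : ℕ => cnt (fun n => ¬ (Finite n ↔ Finite n)) N / N) atTop (𝓝 0) := by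
      refine tendsto_const_nhds.congr fun N => ?_
      rw [cnt_sum]; simp
    refine pw_suff (P := Finite) reach_inv h3 h1 hid hR hA hpos hψ fun hae => hbad ?_
    filter_upwards [hae] with x hx
    rw [Filter.not_frequently] at hx
    filter_upwards [hx] with N hN
    refine lt_of_lt_of_le (not_le.1 hN) ?_
    have h7 : {n : ℕ | 1 ≤ n ∧ n ≤ N ∧ R^[n] x ∈ A ∧ ¬ AtMost F n}.Finite :=
      (Set.finite_Icc 1 N).subset fun n hn => ⟨hn.1, hn.2.1⟩
    have h8 : {n : ℕ | 1 ≤ n ∧ n ≤ N ∧ ¬ Finite n ∧ R^[n] x ∈ A} ⊆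
        {n : ℕ | 1 ≤ n ∧ n ≤ N ∧ R^[n] x ∈ A ∧ ¬ AtMost F n} :=
      fun n hn => ⟨hn.1, hn.2.1, hn.2.2.2, fun h' => hn.2.2.1 h'.1⟩
    exact_mod_cast Set.ncard_le_ncard h8 h7

end Pool.Agent.Results.MP_a1568a_nt.PointwiseErgodicTheorem
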