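import Pool.Agent.Q250.CL.Coll
import Pool.Agent.Q250.CL.Lev

set_option autoImplicit false

/-!
# Waring's problem with one summand of logarithmic total stopping time

Let there be given families of integers of size at most `N`, at least `2 t` of which have a `t`-th additive
energy bounded by a constant times that of a random family; for example the values of given nonconstant
polynomials at the first few integers. For EVERY integer `n` of size `O(N)` consider the representations of `n` as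
the sum of a positive integer `x` and of one member of each family. The total stopping times of the summands `x` obey
the same laws as those of all integers, up to `ε` times the number of all choices: the bound `σ(x) ≤ c log x` of the
question is true with the frequency `δ` for every `c > 2 / log (4/3)` and with the frequency `0` for every
`c < 2 / log (4/3)`, where `δ > 0` is the density of the integers with finite `σ`, and in between the normal law holds,
with the residue classes of `σ(x)`. Consequently every large integer is the sum of a positive integer `x` with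
`|σ(x) - 2 / log (4/3) log x| ≤ η log x` and of `r` positive `k`-th powers, `r = r(k)`, and `σ(x)` may be prescribed to
be in a residue class and below or above the mean; and if for infinitely many `n` almost all the representations of
`n` by `x` and values of a polynomial have `σ(x) ≤ F(x)`, for any function `F`, for example `c log x`, then `σ` is always
finite.

Method: Fourier uniformity of the level sets of `σ` (starting file `JointLaw`), the circle method on a cyclic group
(`Pool/Agent/Q49/WA`), bounds of moments of Weyl sums (starting file `Pool/Agent/Y834/CD/Poly.lean`).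
-/

namespace Pool.Agent.Results.MP_a1568a_nt.WaringProblem

open Filter Topology

/-- the `3x+1` function -/
def T (n : ℕ) : ℕ := if n % 2 = 0 then n / 2 else (3 * n + 1) / 2

/-- the total stopping time of `n` is finite -/
def Finite (n : ℕ) : Prop := ∃ k, T^[k] n = 1

/-- the total stopping time (it is `0` if no iterate equals `1`) -/
noncomputable def σ (n : ℕ) : ℕ := sInf {k : ℕ | T^[k] n = 1}

/-- the positive integers with the property `P` have the natural density `δ` -/
def HasDensity (P : ℕ → Prop) (δ : ℝ) : Prop :=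
  Tendsto (fun N : ℕ => ({n : ℕ | 1 ≤ n ∧ n ≤ N ∧ P n}.ncard : ℝ) / N) atTop (𝓝 δ)

/-- `2 / log (4/3) * log n + x * log 3 * √(2 log n / (log (4/3))^3)` -/
noncomputable def bound (x : ℝ) (n : ℕ) : ℝ :=
  2 / Real.log (4 / 3) * Real.log n
    + x * (Real.log 3 * Real.sqrt (2 * Real.log n / Real.log (4 / 3) ^ 3))

/-- The distribution function of the standard normal law. -/
noncomputable def Phi (x : ℝ) : ℝ :=
  ProbabilityTheory.cdf (ProbabilityTheory.gaussianReal 0 1) x

/-- The number of the pairs of `t`-tuples of members of the family `a` with the same sum. -/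
noncomputable def energy (t : ℕ) {L : ℕ} (a : Fin L → ℤ) : ℕ :=
  {p : (Fin t → Fin L) × (Fin t → Fin L) | ∑ i, a (p.1 i) = ∑ i, a (p.2 i)}.ncard

/-- The energy of the family `a` is at most `K L ^ (2 t) / N`. -/
def Spread (t : ℕ) (K : ℝ) (N : ℕ) {L : ℕ} (a : Fin L → ℤ) : Prop :=
  (energy t a : ℝ) ≤ K * (L : ℝ) ^ (2 * t) / N

/-- The number of the choices `v` of one member `a j (v j)` of each family such that the difference
`x` of `n` and the sum of these members is positive and has the property `Q`. -/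
noncomputable def reps (Q : ℕ → Prop) (n : ℤ) {r : ℕ} {L : Fin r → ℕ} (a : ∀ j, Fin (L j) → ℤ) : ℕ :=
  {v : ∀ j, Fin (L j) | 0 < n - ∑ j, a j (v j) ∧ Q (n - ∑ j, a j (v j)).toNat}.ncard

/-- The values of `F` at `1, ..., L`. -/
noncomputable def vals (F : Polynomial ℤ) (L : ℕ) : Fin L → ℤ :=
  fun m => F.eval (((m : ℕ) + 1 : ℕ) : ℤ)

/-- The number of the `r`-tuples of positive integers `m j` with `|F (m j)| ≤ n` for which the
difference `x` of `n` and the sum of the `F (m j)` is positive and has the property `Q`. -/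
noncomputable def polyReps (Q : ℕ → Prop) (n : ℕ) (F : Polynomial ℤ) (r : ℕ) : ℕ :=
  {m : Fin r → ℕ | (∀ j, 1 ≤ m j ∧ |F.eval (m j : ℤ)| ≤ n) ∧ 0 < (n : ℤ) - ∑ j, F.eval (m j : ℤ) ∧
    Q ((n : ℤ) - ∑ j, F.eval (m j : ℤ)).toNat}.ncard

/-- The property `Q` has the frequency `c` among the summands `x`: for all `r`, `t ≥ 1`, `B`, `K`, `ε > 0`, if `N` is
large, then for all `r` families of integers of absolute value at most `N`, at least `2 t` of which have energy at most
`K L ^ (2 t) / N`, and EVERY integer `n` with `|n| ≤ B N`, the number of the representations of `n` as the sum of a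
positive integer `x` with the property `Q` and of one member of each family is `c` times the number of the
representations with an arbitrary positive integer `x`, up to `ε` times the number of all choices. -/
def Frequency (Q : ℕ → Prop) (c : ℝ) : Prop := ∀ (r t B : ℕ), 1 ≤ t → ∀ K ε : ℝ, 0 < ε → ∃ N₀ : ℕ, ∀ N : ℕ, N₀ ≤ N →
  ∀ (L : Fin r → ℕ) (a : ∀ j, Fin (L j) → ℤ), (∀ j i, |a j i| ≤ N) →
  ∀ J : Finset (Fin r), 2 * t ≤ J.card → (∀ j ∈ J, Spread t K N (a j)) → ∀ n : ℤ, |n| ≤ B * N →
    |(reps Q n a : ℝ) - c * reps (fun _ => True) n a| ≤ ε * ∏ j, (L j : ℝ)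

/-! ### proofs -/

open Pool.Agent.Q250.CL
open Pool.Agent.H499R2.ND (Dn cnt)

theorem freq_of {Q : ℕ → Prop} {c : ℝ} (h : FU Q c) : Frequency Q c := fun r t B ht K _ hε => war h r t B ht K hε

theorem level_eq (m : ℕ) (a : ℤ) (y : ℝ) : (fun n => Pool.Agent.W36.JL.EB m a (Pool.Agent.W36.JL.bd y n) n) =
    fun n => Finite n ∧ (σ n : ℝ) ≤ bound y n ∧ (σ n : ℤ) ≡ a [ZMOD m] := by
  funext n
  apply propext
  constructor
  · rintro ⟨t, h1, ⟨h2, h3⟩, h4⟩
    have e : σ n = t := fst_eq h2 h3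
    exact ⟨⟨t, h2⟩, by rw [e]; exact h1, by rw [e]; exact h4⟩
  · rintro ⟨h1, h2, h3⟩
    exact ⟨σ n, h2, fst_spec h1, h3⟩

/-- WARING'S PROBLEM AND THE TOTAL STOPPING TIME. There is `0 < δ ≤ 1`, the natural density of the positive
integers with finite total stopping time `σ`, equal to `1` if and only if `σ` is always finite, such that, in the sense of
`Frequency`: (1) for every `F` with `F(n) ≥ c log n` for all large `n` and some `c > 2 / log (4/3)` the inequality
`σ(x) ≤ F(x)` (with finite `σ(x)`) has the frequency `δ` among the summands `x`, and if `F(n) ≤ c log n` for all large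
`n` and some `c < 2 / log (4/3)` it has the frequency `0`. (2) For all `m ≥ 1`, `a` and real `y` the `x` with finite
`σ(x) ≤ bound y x` and `σ(x) ≡ a` modulo `m` have the frequency `δ Phi y / m`. (3) For every nonconstant integer
polynomial `F` there are `t ≥ 1`, `K` such that the families `F(1), ..., F(L)` satisfy the condition of `Frequency` with
the constant `K B` if `N ≤ B L ^ deg F`. (4) For every nonconstant integer polynomial `F`, every `r ≥ r₀(F)` and
`c > 2 / log (4/3)`, for every large `n` at least `κ n ^ (r / deg F)` tuples of positive integers `m j` are such that `n`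
is the sum of the `F (m j)` and of a positive integer `x` with `σ(x) ≤ c log x`. (5) For every `k ≥ 1` there is `r` such that
for all `m ≥ 1`, `a`, real `y`, `η > 0`, every large integer is the sum of `r` positive `k`-th powers and of a positive
integer `x` with finite `σ(x) ≤ bound y x`, `σ(x) ≡ a` modulo `m` and `σ(x) ≥ (2 / log (4/3) - η) log x`. (6) Let `F` be
a nonconstant integer polynomial, `r ≥ r₀(F)` and `G` any function. If for infinitely many `n` only
`o(n ^ (r / deg F))` of the tuples of positive integers `m j` lead to an integer `x = n - ∑ F (m j) > 0` for which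
`σ(x) ≤ G(x)` fails (or `σ(x)` is infinite), then `σ(n)` is finite for every positive integer `n`. -/
theorem result : ∃ δ : ℝ, 0 < δ ∧ δ ≤ 1 ∧ (δ = 1 ↔ ∀ n : ℕ, 1 ≤ n → Finite n) ∧ HasDensity Finite δ ∧
    (∀ F : ℕ → ℝ, (∃ c : ℝ, 2 / Real.log (4 / 3) < c ∧ ∀ᶠ n : ℕ in atTop, c * Real.log n ≤ F n) →
      Frequency (fun x => Finite x ∧ (σ x : ℝ) ≤ F x) δ) ∧
    (∀ F : ℕ → ℝ, (∃ c : ℝ, c < 2 / Real.log (4 / 3) ∧ ∀ᶠ n : ℕ in atTop, F n ≤ c * Real.log n) →
      Frequency (fun x => Finite x ∧ (σ x : ℝ) ≤ F x) 0) ∧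
    (∀ (m : ℕ) (a : ℤ) (y : ℝ), 1 ≤ m →
      Frequency (fun x => Finite x ∧ (σ x : ℝ) ≤ bound y x ∧ (σ x : ℤ) ≡ a [ZMOD m]) (δ * Phi y / m)) ∧
    (∀ F : Polynomial ℤ, 1 ≤ F.natDegree → ∃ t : ℕ, 1 ≤ t ∧ ∃ K : ℝ, ∀ B L N : ℕ, 1 ≤ N →
      N ≤ B * L ^ F.natDegree → Spread t (K * B) N (vals F L)) ∧
    (∀ F : Polynomial ℤ, 1 ≤ F.natDegree → ∃ r₀ : ℕ, ∀ r : ℕ, r₀ ≤ r → ∀ c : ℝ, 2 / Real.log (4 / 3) < c →
      ∃ κ : ℝ, 0 < κ ∧ ∃ n₀ : ℕ, ∀ n : ℕ, n₀ ≤ n → κ * (n : ℝ) ^ ((r : ℝ) / F.natDegree) ≤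
        polyReps (fun x => Finite x ∧ (σ x : ℝ) ≤ c * Real.log x) n F r) ∧
    (∀ k : ℕ, 1 ≤ k → ∃ r : ℕ, 1 ≤ r ∧ ∀ (m : ℕ) (a : ℤ) (y η : ℝ), 1 ≤ m → 0 < η → ∃ n₀ : ℕ, ∀ n : ℕ, n₀ ≤ n →
      ∃ x : ℕ, 1 ≤ x ∧ Finite x ∧ (σ x : ℝ) ≤ bound y x ∧ (σ x : ℤ) ≡ a [ZMOD m] ∧
        (2 / Real.log (4 / 3) - η) * Real.log x ≤ σ x ∧
        ∃ z : Fin r → ℕ, (∀ j, 1 ≤ z j) ∧ n = x + ∑ j, z j ^ k) ∧
    ∀ F : Polynomial ℤ, 1 ≤ F.natDegree → ∃ r₀ : ℕ, ∀ r : ℕ, r₀ ≤ r → ∀ (G ψ : ℕ → ℝ), Tendsto ψ atTop (𝓝 0) →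
      (∃ᶠ n : ℕ in atTop, (polyReps (fun x => ¬ (Finite x ∧ (σ x : ℝ) ≤ G x)) n F r : ℝ)
        ≤ ψ n * (n : ℝ) ^ ((r : ℝ) / F.natDegree)) →
      ∀ n : ℕ, 1 ≤ n → Finite n := by
  obtain ⟨δ, h0, h1, h2, h3, hlln⟩ := lln_T
  obtain ⟨δ', _, _, _, h3', hE⟩ := Pool.Agent.W36.JL.lawE
  have e0 : δ' = δ := tendsto_nhds_unique h3' h3
  rw [e0] at hE
  have hF : FU Finite δ := fu_inv (P := Finite) reach_inv h3
  have hlln' : ∀ η : ℝ, 0 < η → Tendsto (fun N : ℕ =>
      cnt (fun n => Finite n ∧ η * Real.log n < |(σ n : ℝ) - 2 / Real.log (4 / 3) * Real.log n|) N / N) atTop (𝓝 0) := hlln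
  have hfalse : FU (fun _ => False) 0 := by
    intro ε hε
    refine ⟨0, fun N _ α => ?_⟩
    simp only [if_false, sub_zero, Complex.ofReal_zero, zero_mul, Finset.sum_const_zero, norm_zero]
    positivity
  have hA : ∀ G : ℕ → ℝ, (∃ c : ℝ, 2 / Real.log (4 / 3) < c ∧ ∀ᶠ n : ℕ in atTop, c * Real.log n ≤ G n) →
      FU (fun x => Finite x ∧ (σ x : ℝ) ≤ G x) δ := fun G hG => fu_near hF (dz_above hlln' hG)
  have hLev : ∀ (m : ℕ) (a : ℤ) (y : ℝ), 1 ≤ m →
      FU (fun x => Finite x ∧ (σ x : ℝ) ≤ bound y x ∧ (σ x : ℤ) ≡ a [ZMOD m]) (δ * Phi y / m) := by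
    intro m a y hm
    have h6 := fu_level h0 h1 hm a (hE m a hm) y
    rw [level_eq] at h6
    have e : δ * Pool.Agent.H499R2.ND.Phi y / m = δ * Phi y / m := by
      rw [Pool.Agent.H499R2.ND.phi_cdf]; rfl
    rwa [e] at h6
  refine ⟨δ, h0, h1, h2, h3, fun G hG => freq_of (hA G hG),
    fun G hG => freq_of (fu_near hfalse (dz_below hlln' hG)), fun m a y hm => freq_of (hLev m a y hm),
    fun F hF' => ?_, fun F hF' => ?_, fun k hk => ?_, fun F hF' => ?_⟩
  · obtain ⟨t₀, C, -, H⟩ := Pool.Agent.Results.MP_d02c56_nt.WaringProblem.poly_spread F hF'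
    exact ⟨t₀ + 1, by omega, C, fun B L N hN hNL => H (t₀ + 1) (by omega) B L N hN hNL⟩
  · obtain ⟨r₀, _, H⟩ := every hF'
    refine ⟨r₀, fun r hr c hc => ?_⟩
    have h6 : FU (fun x : ℕ => Finite x ∧ (σ x : ℝ) ≤ c * Real.log x) δ :=
      hA (fun n => c * Real.log n) ⟨c, hc, Eventually.of_forall fun n => le_rfl⟩
    exact H r hr (fun x : ℕ => Finite x ∧ (σ x : ℝ) ≤ c * Real.log x) δ h6 h0
  · obtain ⟨r, hr, H⟩ := powers hk
    refine ⟨r, hr, fun m a y η hm hη => ?_⟩
    have hPhi : 0 < Phi y := by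
      unfold Phi
      rw [ProbabilityTheory.cdf_eq_real, MeasureTheory.measureReal_def]
      refine ENNReal.toReal_pos (fun hz => ?_) (MeasureTheory.measure_ne_top _ _)
      have := ProbabilityTheory.gaussianReal_absolutelyContinuous' 0 one_ne_zero hz
      simp at this
    have hm0 : (0 : ℝ) < m := by exact_mod_cast hm
    have hl2 : Tendsto (fun N : ℕ => cnt (fun n => ¬ ((Finite n ∧ (σ n : ℝ) ≤ bound y n ∧ (σ n : ℤ) ≡ a [ZMOD m]) ↔
        ((Finite n ∧ (σ n : ℝ) ≤ bound y n ∧ (σ n : ℤ) ≡ a [ZMOD m]) ∧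
          (2 / Real.log (4 / 3) - η) * Real.log n ≤ σ n))) N / N) atTop (𝓝 0) := by
      refine squeeze_zero' (Eventually.of_forall fun N => div_nonneg
        (Pool.Agent.H499R2.ND.cntn_nonneg _ _) (Nat.cast_nonneg _))
        (g := fun N : ℕ => cnt (fun n => Finite n ∧
          η / 2 * Real.log n < |(σ n : ℝ) - 2 / Real.log (4 / 3) * Real.log n|) N / N
          + ((2 : ℕ) : ℝ) / N) (Eventually.of_forall fun N => ?_) ?_
      · rw [← add_div]
        refine div_le_div_of_nonneg_right ?_ (Nat.cast_nonneg _)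
        refine (cnt_add_le (R := fun n => n < 2) N fun n _ _ h => ?_).trans (by gcongr; exact cnt_lt 2 N)
        by_cases hn : n < 2
        · exact Or.inr hn
        · left
          have hq : Finite n ∧ (σ n : ℝ) ≤ bound y n ∧ (σ n : ℤ) ≡ a [ZMOD m] := by
            by_contra hf
            exact h ⟨fun h' => absurd h' hf, fun h' => h'.1⟩
          have h6 : ¬ ((2 / Real.log (4 / 3) - η) * Real.log n ≤ σ n) := fun h' =>
            h ⟨fun _ => ⟨hq, h'⟩, fun h' => h'.1⟩
          have hlog : 0 < Real.log n := Real.log_pos (by exact_mod_cast (by omega : 1 < n))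
          refine ⟨hq.1, ?_⟩
          rw [abs_sub_comm]
          refine lt_of_lt_of_le ?_ (le_abs_self _)
          nlinarith [not_le.1 h6]
      · have := (hlln' (η / 2) (by positivity)).add (tendsto_const_div_atTop_nhds_zero_nat ((2 : ℕ) : ℝ))
        simpa using this
    obtain ⟨n₀, H0⟩ := H _ _ (fu_near (hLev m a y hm) hl2) (by positivity)
    refine ⟨n₀, fun n hn => ?_⟩
    obtain ⟨x, hx, ⟨⟨g1, g2, g3⟩, g4⟩, z, hz, hzn⟩ := H0 n hn
    exact ⟨x, hx, g1, g2, g3, g4, z, hz, hzn⟩
  · obtain ⟨r₀, H⟩ := few_exc hF'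
    refine ⟨r₀, fun r hr G ψ hψ h => h2.1 (H r hr Finite δ hF h1 ψ hψ (h.mono fun n hn => le_trans ?_ hn))⟩
    have hfin := Pool.Agent.Q49.WA.polyRepsQ_finite (fun x => ¬ (Finite x.toNat ∧ (σ x.toNat : ℝ) ≤ G x.toNat)) n F hF' r
    have hle : Pool.Agent.Q49.WA.polyRepsQ (fun x => ¬ Finite x.toNat) n F r
        ≤ polyReps (fun x => ¬ (Finite x ∧ (σ x : ℝ) ≤ G x)) n F r := by
      unfold Pool.Agent.Q49.WA.polyRepsQ polyReps
      refine Set.ncard_le_ncard ?_ hfin
      rintro m ⟨g1, g2, g3⟩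
      exact ⟨g1, g2, fun h' => g3 h'.1⟩
    exact_mod_cast hle

end Pool.Agent.Results.MP_a1568a_nt.WaringProblem
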